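import Pool.Agent.H11.ZDE.Loc

/-!
# Module F2: sinks persist
-/

set_option linter.unusedSimpArgs false
set_option linter.unusedVariables false

namespace Pool.Agent.H11.ZDE

open RootLat

variable {L : Type*} [AddCommGroup L] {R : RootLat L}

namespace Sys

variable (S : Sys R) {x w : Module.End ℤ L} {a b c d e f p q z : L}

/-! ### membership of `e` -/

theorem f2_e0 (ha : S.F x a) (he : S.F (x * R.r a) e) (h : R.Q a e = 0) : S.F x e := by
  have h' : R.Q e a = 0 := by rw [R.Q_comm]; exact h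
  have h1 : S.V (x * R.r e) := by
    refine S.dn he.v (b := a) ha.q ha.p ha.xp ?_ ?_
    · simp only [Module.End.mul_apply, r_apply, h, h', ha.q, map_sub, map_zsmul]
      module
    · rw [mul_assoc, mul_assoc, ← R.sw0 h, ← mul_assoc, ← mul_assoc, mul_assoc x, R.r_r ha.q, mul_one]
  refine ⟨he.q, he.p, R.P_cast he.xp ?_, h1⟩
  simp only [Module.End.mul_apply, r_apply, h, h', map_sub, map_zsmul]
  module

theorem f2_em (ha : S.F x a) (he : S.F (x * R.r a) e) (h : R.Q a e = -1) (hp : R.P (x e)) : S.F x e := by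
  have E : Ch2 R a e := Ch2.mk' ha.q he.q h ha.p he.p
  refine S.mkF he.q he.p hp rfl ?_ rfl
  exact S.dn he.v (b := a + e) (by (simp only [RootLat.Q_sub, RootLat.Q_smul, RootLat.Q_subr, RootLat.Q_smulr, RootLat.Q_add, RootLat.Q_addr, RootLat.Q_neg, RootLat.Q_negr, Ch2.aa E, Ch2.bb E, Ch2.ab E, Ch2.ba E]; try norm_num)) (R.P_add ha.p he.p) ha.xp (by (simp only [Module.End.mul_apply, Module.End.one_apply, RootLat.r_apply, RootLat.Q_sub, RootLat.Q_smul, RootLat.Q_subr, RootLat.Q_smulr, RootLat.Q_add, RootLat.Q_addr, RootLat.Q_neg, RootLat.Q_negr, Ch2.aa E, Ch2.bb E, Ch2.ab E, Ch2.ba E, map_add, map_sub, map_neg, map_zsmul]; try module)) (by (refine LinearMap.ext fun v => ?_; simp only [Module.End.mul_apply, Module.End.one_apply, RootLat.r_apply, RootLat.Q_sub, RootLat.Q_smul, RootLat.Q_subr, RootLat.Q_smulr, RootLat.Q_add, RootLat.Q_addr, RootLat.Q_neg, RootLat.Q_negr, Ch2.aa E, Ch2.bb E, Ch2.ab E, Ch2.ba E,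 map_add, map_sub, map_neg, map_zsmul]; try module))

theorem f2_em' (ha : S.F x a) (he : S.F (x * R.r a) e) (h : R.Q a e = -1) (hp : R.P (-(x e))) :
    S.F x (a + e) := by
  have E : Ch2 R a e := Ch2.mk' ha.q he.q h ha.p he.p
  refine S.mkF (by (simp only [RootLat.Q_sub, RootLat.Q_smul, RootLat.Q_subr, RootLat.Q_smulr, RootLat.Q_add, RootLat.Q_addr, RootLat.Q_neg, RootLat.Q_negr, Ch2.aa E, Ch2.bb E, Ch2.ab E, Ch2.ba E]; try norm_num)) (R.P_add ha.p he.p) he.xp (by (simp only [Module.End.mul_apply, Module.End.one_apply, RootLat.r_apply, RootLat.Q_sub, RootLat.Q_smul, RootLat.Q_subr, RootLat.Q_smulr, RootLat.Q_add, RootLat.Q_addr, RootLat.Q_neg, RootLat.Q_negr, Ch2.aa E, Ch2.bb E, Ch2.ab E, Ch2.ba E, map_add, map_sub, map_neg, map_zsmul]; try module)) ?_ rfl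
  exact S.dn he.v (b := a) E.aa E.pa hp (by (simp only [Module.End.mul_apply, Module.End.one_apply, RootLat.r_apply, RootLat.Q_sub, RootLat.Q_smul, RootLat.Q_subr, RootLat.Q_smulr, RootLat.Q_add, RootLat.Q_addr, RootLat.Q_neg, RootLat.Q_negr, Ch2.aa E, Ch2.bb E, Ch2.ab E, Ch2.ba E, map_add, map_sub, map_neg, map_zsmul]; try module)) (by (refine LinearMap.ext fun v => ?_; simp only [Module.End.mul_apply, Module.End.one_apply, RootLat.r_apply, RootLat.Q_sub, RootLat.Q_smul, RootLat.Q_subr, RootLat.Q_smulr, RootLat.Q_add, RootLat.Q_addr, RootLat.Q_neg, RootLat.Q_negr, Ch2.aa E, Ch2.bb E, Ch2.ab E, Ch2.ba E, map_add, map_sub, map_neg, map_zsmul]; try module))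

theorem f2_ep (E : Ch2 R a d) (ha : S.F x a) (he : S.F (x * R.r a) (a + d)) : S.F x d := by
  have h1 : R.P (x d) := R.P_cast he.xp (by (simp only [Module.End.mul_apply, Module.End.one_apply, RootLat.r_apply, RootLat.Q_sub, RootLat.Q_smul, RootLat.Q_subr, RootLat.Q_smulr, RootLat.Q_add, RootLat.Q_addr, RootLat.Q_neg, RootLat.Q_negr, Ch2.aa E, Ch2.bb E, Ch2.ab E, Ch2.ba E, map_add, map_sub, map_neg, map_zsmul]; try module))
  refine S.mkF E.bb E.pb h1 rfl ?_ rfl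
  exact S.dn he.v (b := a) E.aa E.pa (R.P_add ha.xp h1) (by (simp only [Module.End.mul_apply, Module.End.one_apply, RootLat.r_apply, RootLat.Q_sub, RootLat.Q_smul, RootLat.Q_subr, RootLat.Q_smulr, RootLat.Q_add, RootLat.Q_addr, RootLat.Q_neg, RootLat.Q_negr, Ch2.aa E, Ch2.bb E, Ch2.ab E, Ch2.ba E, map_add, map_sub, map_neg, map_zsmul]; try module)) (by (refine LinearMap.ext fun v => ?_; simp only [Module.End.mul_apply, Module.End.one_apply, RootLat.r_apply, RootLat.Q_sub, RootLat.Q_smul, RootLat.Q_subr, RootLat.Q_smulr, RootLat.Q_add, RootLat.Q_addr, RootLat.Q_neg, RootLat.Q_negr, Ch2.aa E, Ch2.bb E, Ch2.ab E, Ch2.ba E, map_add, map_sub, map_neg, map_zsmul]; try module))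

theorem f2_ep' (E : Ch2 R e d) (ha : S.F x (e + d)) (he : S.F (x * R.r (e + d)) e) : S.F x e := by
  have h1 : R.P (-(x d)) := R.P_cast he.xp (by (simp only [Module.End.mul_apply, Module.End.one_apply, RootLat.r_apply, RootLat.Q_sub, RootLat.Q_smul, RootLat.Q_subr, RootLat.Q_smulr, RootLat.Q_add, RootLat.Q_addr, RootLat.Q_neg, RootLat.Q_negr, Ch2.aa E, Ch2.bb E, Ch2.ab E, Ch2.ba E, map_add, map_sub, map_neg, map_zsmul]; try module))
  refine S.mkF E.aa E.pa (R.P_add ha.xp h1) (by (simp only [Module.End.mul_apply, Module.End.one_apply, RootLat.r_apply, RootLat.Q_sub, RootLat.Q_smul, RootLat.Q_subr, RootLat.Q_smulr, RootLat.Q_add, RootLat.Q_addr, RootLat.Q_neg, RootLat.Q_negr, Ch2.aa E, Ch2.bb E, Ch2.ab E, Ch2.ba E, map_add, map_sub, map_neg, map_zsmul]; try module)) ?_ rfl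
  exact S.dn he.v (b := d) E.bb E.pb ha.xp (by (simp only [Module.End.mul_apply, Module.End.one_apply, RootLat.r_apply, RootLat.Q_sub, RootLat.Q_smul, RootLat.Q_subr, RootLat.Q_smulr, RootLat.Q_add, RootLat.Q_addr, RootLat.Q_neg, RootLat.Q_negr, Ch2.aa E, Ch2.bb E, Ch2.ab E, Ch2.ba E, map_add, map_sub, map_neg, map_zsmul]; try module)) (by (refine LinearMap.ext fun v => ?_; simp only [Module.End.mul_apply, Module.End.one_apply, RootLat.r_apply, RootLat.Q_sub, RootLat.Q_smul, RootLat.Q_subr, RootLat.Q_smulr, RootLat.Q_add, RootLat.Q_addr, RootLat.Q_neg, RootLat.Q_negr, Ch2.aa E, Ch2.bb E, Ch2.ab E, Ch2.ba E, map_add, map_sub, map_neg, map_zsmul]; try module))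

/-! ### the chain lemma -/

theorem S3 (hx : S.A x) (E : Ch R p q b) (hp : S.F x p) (hq : S.F x q) (hb : S.Sink x b)
    (hv : S.V (x * R.r p * R.r q)) : S.V (x * R.r p * R.r q * R.r b) := by
  by_contra hcon
  have hns : ¬ S.F x (p + q) := by
    intro hf
    have h1 := hb.s (p + q) hf (by (simp only [RootLat.Q_sub, RootLat.Q_smul, RootLat.Q_subr, RootLat.Q_smulr, RootLat.Q_add, RootLat.Q_addr, RootLat.Q_neg, RootLat.Q_negr, Ch.aa E, Ch.bb E, Ch.cc E, Ch.ab E, Ch.ba E, Ch.bc E, Ch.cb E, Ch.ac E, Ch.ca E]; try norm_num))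
    exact hcon (S.dn h1 (b := p) E.aa E.pa hq.xp (by (simp only [Module.End.mul_apply, Module.End.one_apply, RootLat.r_apply, RootLat.Q_sub, RootLat.Q_smul, RootLat.Q_subr, RootLat.Q_smulr, RootLat.Q_add, RootLat.Q_addr, RootLat.Q_neg, RootLat.Q_negr, Ch.aa E, Ch.bb E, Ch.cc E, Ch.ab E, Ch.ba E, Ch.bc E, Ch.cb E, Ch.ac E, Ch.ca E, map_add, map_sub, map_neg, map_zsmul]; try module)) (by (refine LinearMap.ext fun v => ?_; simp only [Module.End.mul_apply, Module.End.one_apply, RootLat.r_apply, RootLat.Q_sub, RootLat.Q_smul, RootLat.Q_subr, RootLat.Q_smulr, RootLat.Q_add, RootLat.Q_addr, RootLat.Q_neg, RootLat.Q_negr, Ch.aa E, Ch.bb E, Ch.cc E, Ch.ab E, Ch.ba E, Ch.bc E, Ch.cb E, Ch.ac E, Ch.ca E, map_add, map_sub, map_neg, map_zsmul]; try module)))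
  have hy := S.act hx hp
  have fq : S.F (x * R.r p) q := S.T2 hp hq E.ab hv
  have fb : S.F (x * R.r p) b := S.T1 hx hp hb.fb E.ac
  have h2 : S.V (x * R.r p * R.r b * R.r q) := by
    rcases S.ruleM _ q b hy fq fb E.bc with h | h
    · exact absurd h hcon
    · exact h
  have h3 : S.V (x * R.r b * R.r q) :=
    S.dn h2 (b := p + q) (by (simp only [RootLat.Q_sub, RootLat.Q_smul, RootLat.Q_subr, RootLat.Q_smulr, RootLat.Q_add, RootLat.Q_addr, RootLat.Q_neg, RootLat.Q_negr, Ch.aa E, Ch.bb E, Ch.cc E, Ch.ab E, Ch.ba E, Ch.bc E, Ch.cb E, Ch.ac E, Ch.ca E]; try norm_num)) (R.P_add E.pa E.pb) hp.xp (by (simp only [Module.End.mul_apply, Module.End.one_apply, RootLat.r_apply, RootLat.Q_sub, RootLat.Q_smul, RootLat.Q_subr, RootLat.Q_smulr, RootLat.Q_add, RootLat.Q_addr, RootLat.Q_neg, RootLat.Q_negr, Ch.aa E, Ch.bb E, Ch.cc E, Ch.ab E, Ch.ba E, Ch.bc E, Ch.cb E, Ch.ac E, Ch.ca E, map_add, map_sub, map_neg, map_zsmul];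 try module)) (by (refine LinearMap.ext fun v => ?_; simp only [Module.End.mul_apply, Module.End.one_apply, RootLat.r_apply, RootLat.Q_sub, RootLat.Q_smul, RootLat.Q_subr, RootLat.Q_smulr, RootLat.Q_add, RootLat.Q_addr, RootLat.Q_neg, RootLat.Q_negr, Ch.aa E, Ch.bb E, Ch.cc E, Ch.ab E, Ch.ba E, Ch.bc E, Ch.cb E, Ch.ac E, Ch.ca E, map_add, map_sub, map_neg, map_zsmul]; try module))
  have h4 := hb.s q hq E.cb
  have hbq : S.F x (b + q) := S.M2 hx hb.fb hq E.cb h3 h4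
  rcases S.ruleM _ p (b + q) hx hp hbq (by (simp only [RootLat.Q_sub, RootLat.Q_smul, RootLat.Q_subr, RootLat.Q_smulr, RootLat.Q_add, RootLat.Q_addr, RootLat.Q_neg, RootLat.Q_negr, Ch.aa E, Ch.bb E, Ch.cc E, Ch.ab E, Ch.ba E, Ch.bc E, Ch.cb E, Ch.ac E, Ch.ca E]; try norm_num)) with h | h
  · exact hcon (S.dn h (b := q) E.bb E.pb hb.fb.xp (by (simp only [Module.End.mul_apply, Module.End.one_apply, RootLat.r_apply, RootLat.Q_sub, RootLat.Q_smul, RootLat.Q_subr, RootLat.Q_smulr, RootLat.Q_add, RootLat.Q_addr, RootLat.Q_neg, RootLat.Q_negr, Ch.aa E, Ch.bb E, Ch.cc E, Ch.ab E, Ch.ba E, Ch.bc E, Ch.cb E, Ch.ac E, Ch.ca E, map_add, map_sub, map_neg, map_zsmul]; try module)) (by (refine LinearMap.ext fun v => ?_; simp only [Module.End.mul_apply, Module.End.one_apply, RootLat.r_apply, RootLat.Q_sub, RootLat.Q_smul, RootLat.Q_subr, RootLat.Q_smulr, RootLat.Q_add, RootLat.Q_addr, RootLat.Q_neg, RootLat.Q_negr, Ch.aa E,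 Ch.bb E, Ch.cc E, Ch.ab E, Ch.ba E, Ch.bc E, Ch.cb E, Ch.ac E, Ch.ca E, map_add, map_sub, map_neg, map_zsmul]; try module)))
  · have h5 : S.V (x * R.r (b + q) * R.r p * R.r (p + q)) :=
      S.dn h (b := p + q) (by (simp only [RootLat.Q_sub, RootLat.Q_smul, RootLat.Q_subr, RootLat.Q_smulr, RootLat.Q_add, RootLat.Q_addr, RootLat.Q_neg, RootLat.Q_negr, Ch.aa E, Ch.bb E, Ch.cc E, Ch.ab E, Ch.ba E, Ch.bc E, Ch.cb E, Ch.ac E, Ch.ca E]; try norm_num)) (R.P_add E.pa E.pb) hb.fb.xp (by (simp only [Module.End.mul_apply, Module.End.one_apply, RootLat.r_apply, RootLat.Q_sub, RootLat.Q_smul, RootLat.Q_subr, RootLat.Q_smulr, RootLat.Q_add, RootLat.Q_addr, RootLat.Q_neg, RootLat.Q_negr, Ch.aa E, Ch.bb E, Ch.cc E, Ch.ab E, Ch.ba E, Ch.bc E, Ch.cb E, Ch.ac E, Ch.ca E, map_add, map_sub, map_neg, map_zsmul]; try module)) rfl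
    have h6 : S.V (x * R.r q * R.r p) :=
      S.dn h5 (b := b) E.cc E.pc hbq.xp (by (simp only [Module.End.mul_apply, Module.End.one_apply, RootLat.r_apply, RootLat.Q_sub, RootLat.Q_smul, RootLat.Q_subr, RootLat.Q_smulr, RootLat.Q_add, RootLat.Q_addr, RootLat.Q_neg, RootLat.Q_negr, Ch.aa E, Ch.bb E, Ch.cc E, Ch.ab E, Ch.ba E, Ch.bc E, Ch.cb E, Ch.ac E, Ch.ca E, map_add, map_sub, map_neg, map_zsmul]; try module)) (by (refine LinearMap.ext fun v => ?_; simp only [Module.End.mul_apply, Module.End.one_apply, RootLat.r_apply, RootLat.Q_sub, RootLat.Q_smul, RootLat.Q_subr, RootLat.Q_smulr, RootLat.Q_add, RootLat.Q_addr, RootLat.Q_neg, RootLat.Q_negr, Ch.aa E, Ch.bb E, Ch.cc E, Ch.ab E, Ch.ba E, Ch.bc E, Ch.cb E, Ch.ac E, Ch.ca E, map_add, map_sub, map_neg, map_zsmul]; try module))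
    exact hns (S.M2 hx hp hq E.ab hv h6)

/-! ### case (a,b) = 0 -/

theorem f2_A1 (hx : S.A x) (hb : S.Sink x b) (ha : S.F x a) (he : S.F (x * R.r a) e) (h1 : R.Q a b = 0)
    (h2 : R.Q a e = 0) (h3 : R.Q b e = -1) : S.V (x * R.r a * R.r e * R.r b) := by
  have fe := S.f2_e0 ha he h2
  have hv := hb.s e fe h3
  have hy := S.act hx fe
  have fa : S.F (x * R.r e) a := S.T1 hx fe ha (by rw [R.Q_comm]; exact h2)
  have fb : S.F (x * R.r e) b := S.T2 fe hb.fb (by rw [R.Q_comm]; exact h3) hv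
  exact S.O hy fa fb h1 (by rw [mul_assoc x (R.r a), R.sw0 h2, ← mul_assoc])

theorem f2_A2 (hx : S.A x) (E : Ch R a e b) (hb : S.Sink x b) (ha : S.F x a) (he : S.F (x * R.r a) e) :
    S.V (x * R.r a * R.r e * R.r b) := by
  rcases S.sgn (S.AV _ hx) E.bb with hp | hp
  · exact S.S3 hx E ha (S.f2_em ha he E.ab hp) hb he.v
  · have ff := S.f2_em' ha he E.ab hp
    have hv := hb.s (a + e) ff (by (simp only [RootLat.Q_sub, RootLat.Q_smul, RootLat.Q_subr, RootLat.Q_smulr, RootLat.Q_add, RootLat.Q_addr, RootLat.Q_neg, RootLat.Q_negr, Ch.aa E, Ch.bb E, Ch.cc E, Ch.ab E, Ch.ba E, Ch.bc E, Ch.cb E, Ch.ac E, Ch.ca E]; try norm_num))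
    have hy := S.act hx ff
    have fa : S.F (x * R.r (a + e)) a := S.mkF E.aa E.pa hp (by (simp only [Module.End.mul_apply, Module.End.one_apply, RootLat.r_apply, RootLat.Q_sub, RootLat.Q_smul, RootLat.Q_subr, RootLat.Q_smulr, RootLat.Q_add, RootLat.Q_addr, RootLat.Q_neg, RootLat.Q_negr, Ch.aa E, Ch.bb E, Ch.cc E, Ch.ab E, Ch.ba E, Ch.bc E, Ch.cb E, Ch.ac E, Ch.ca E, map_add, map_sub, map_neg, map_zsmul]; try module)) he.v (by (refine LinearMap.ext fun v => ?_; simp only [Module.End.mul_apply, Module.End.one_apply, RootLat.r_apply, RootLat.Q_sub, RootLat.Q_smul, RootLat.Q_subr, RootLat.Q_smulr, RootLat.Q_add, RootLat.Q_addr, RootLat.Q_neg, RootLat.Q_negr, Ch.aa E, Ch.bb E, Ch.cc E, Ch.ab E, Ch.ba E, Ch.bc E, Ch.cb E, Ch.ac E, Ch.ca E, map_add, map_sub, map_neg, map_zsmul]; try module))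
    have fb : S.F (x * R.r (a + e)) b := S.T2 ff hb.fb (by (simp only [RootLat.Q_sub, RootLat.Q_smul, RootLat.Q_subr, RootLat.Q_smulr, RootLat.Q_add, RootLat.Q_addr, RootLat.Q_neg, RootLat.Q_negr, Ch.aa E, Ch.bb E, Ch.cc E, Ch.ab E, Ch.ba E, Ch.bc E, Ch.cb E, Ch.ac E, Ch.ca E]; try norm_num)) hv
    exact S.O hy fa fb E.ac (by (refine LinearMap.ext fun v => ?_; simp only [Module.End.mul_apply, Module.End.one_apply, RootLat.r_apply, RootLat.Q_sub, RootLat.Q_smul, RootLat.Q_subr, RootLat.Q_smulr, RootLat.Q_add, RootLat.Q_addr, RootLat.Q_neg, RootLat.Q_negr, Ch.aa E, Ch.bb E, Ch.cc E, Ch.ab E, Ch.ba E, Ch.bc E, Ch.cb E, Ch.ac E, Ch.ca E, map_add, map_sub, map_neg, map_zsmul]; try module))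

/-- `e = a + d`, chain `a - d - b` -/
theorem f2_A3 (hx : S.A x) (E : Ch R a d b) (hb : S.Sink x b) (ha : S.F x a) (he : S.F (x * R.r a) (a + d)) :
    S.V (x * R.r a * R.r (a + d) * R.r b) := by
  have E2 : Ch2 R a d := Ch2.mk' E.aa E.bb E.ab E.pa E.pb
  have fd := S.f2_ep E2 ha he
  have hv := hb.s d fd E.cb
  have hy := S.act hx fd
  have fa : S.F (x * R.r d) a := S.mkF E.aa E.pa (R.P_add ha.xp fd.xp) (by (simp only [Module.End.mul_apply, Module.End.one_apply, RootLat.r_apply, RootLat.Q_sub, RootLat.Q_smul, RootLat.Q_subr, RootLat.Q_smulr, RootLat.Q_add, RootLat.Q_addr, RootLat.Q_neg, RootLat.Q_negr, Ch.aa E, Ch.bb E, Ch.cc E, Ch.ab E, Ch.ba E, Ch.bc E, Ch.cb E, Ch.ac E, Ch.ca E, map_add, map_sub, map_neg, map_zsmul]; try module)) he.v (by (refine LinearMap.ext fun v => ?_; simp only [Module.End.mul_apply, Module.End.one_apply, RootLat.r_apply, RootLat.Q_sub, RootLat.Q_smul, RootLat.Q_subr, RootLat.Q_smulr,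 RootLat.Q_add, RootLat.Q_addr, RootLat.Q_neg, RootLat.Q_negr, Ch.aa E, Ch.bb E, Ch.cc E, Ch.ab E, Ch.ba E, Ch.bc E, Ch.cb E, Ch.ac E, Ch.ca E, map_add, map_sub, map_neg, map_zsmul]; try module))
  have fb : S.F (x * R.r d) b := S.T2 fd hb.fb E.bc hv
  exact S.O hy fa fb E.ac (by (refine LinearMap.ext fun v => ?_; simp only [Module.End.mul_apply, Module.End.one_apply, RootLat.r_apply, RootLat.Q_sub, RootLat.Q_smul, RootLat.Q_subr, RootLat.Q_smulr, RootLat.Q_add, RootLat.Q_addr, RootLat.Q_neg, RootLat.Q_negr, Ch.aa E, Ch.bb E, Ch.cc E, Ch.ab E, Ch.ba E, Ch.bc E, Ch.cb E, Ch.ac E, Ch.ca E, map_add, map_sub, map_neg, map_zsmul]; try module))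

/-- `a = e + d`, `b = d + k`, chain `e - d - k` -/
theorem f2_A4 (hx : S.A x) (E : Ch R e d f) (hb : S.Sink x (d + f)) (ha : S.F x (e + d))
    (he : S.F (x * R.r (e + d)) e) : S.V (x * R.r (e + d) * R.r e * R.r (d + f)) := by
  have E2 : Ch2 R e d := Ch2.mk' E.aa E.bb E.ab E.pa E.pb
  have fe := S.f2_ep' E2 ha he
  have hv := hb.s e fe (by (simp only [RootLat.Q_sub, RootLat.Q_smul, RootLat.Q_subr, RootLat.Q_smulr, RootLat.Q_add, RootLat.Q_addr, RootLat.Q_neg, RootLat.Q_negr, Ch.aa E, Ch.bb E, Ch.cc E, Ch.ab E, Ch.ba E, Ch.bc E, Ch.cb E, Ch.ac E, Ch.ca E]; try norm_num))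
  exact S.dn hv (b := f) E.cc E.pc ha.xp (by (simp only [Module.End.mul_apply, Module.End.one_apply, RootLat.r_apply, RootLat.Q_sub, RootLat.Q_smul, RootLat.Q_subr, RootLat.Q_smulr, RootLat.Q_add, RootLat.Q_addr, RootLat.Q_neg, RootLat.Q_negr, Ch.aa E, Ch.bb E, Ch.cc E, Ch.ab E, Ch.ba E, Ch.bc E, Ch.cb E, Ch.ac E, Ch.ca E, map_add, map_sub, map_neg, map_zsmul]; try module)) (by (refine LinearMap.ext fun v => ?_; simp only [Module.End.mul_apply, Module.End.one_apply, RootLat.r_apply, RootLat.Q_sub, RootLat.Q_smul, RootLat.Q_subr, RootLat.Q_smulr, RootLat.Q_add, RootLat.Q_addr, RootLat.Q_neg, RootLat.Q_negr, Ch.aa E, Ch.bb E, Ch.cc E, Ch.ab E, Ch.ba E, Ch.bc E, Ch.cb E, Ch.ac E, Ch.ca E, map_add, map_sub, map_neg, map_zsmul]; try module))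

/-- `a = e + b + k`, chain `e - b - k` -/
theorem f2_A5 (hx : S.A x) (E : Ch R e b f) (hb : S.Sink x b) (ha : S.F x (e + (b + f)))
    (he : S.F (x * R.r (e + (b + f))) e) : S.V (x * R.r (e + (b + f)) * R.r e * R.r b) := by
  have E2 : Ch2 R e (b + f) := Ch2.mk' E.aa (by (simp only [RootLat.Q_sub, RootLat.Q_smul, RootLat.Q_subr, RootLat.Q_smulr, RootLat.Q_add, RootLat.Q_addr, RootLat.Q_neg, RootLat.Q_negr, Ch.aa E, Ch.bb E, Ch.cc E, Ch.ab E, Ch.ba E, Ch.bc E, Ch.cb E, Ch.ac E, Ch.ca E]; try norm_num)) (by (simp only [RootLat.Q_sub, RootLat.Q_smul, RootLat.Q_subr, RootLat.Q_smulr, RootLat.Q_add, RootLat.Q_addr, RootLat.Q_neg, RootLat.Q_negr, Ch.aa E, Ch.bb E, Ch.cc E, Ch.ab E, Ch.ba E, Ch.bc E, Ch.cb E, Ch.ac E, Ch.ca E]; try norm_num)) E.pa (R.P_add E.pb E.pc)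
  have fe := S.f2_ep' E2 ha he
  have hv := hb.s e fe E.ba
  have hy := S.act hx fe
  have hd : R.P (-(x (b + f))) := R.P_cast he.xp (by (simp only [Module.End.mul_apply, Module.End.one_apply, RootLat.r_apply, RootLat.Q_sub, RootLat.Q_smul, RootLat.Q_subr, RootLat.Q_smulr, RootLat.Q_add, RootLat.Q_addr, RootLat.Q_neg, RootLat.Q_negr, Ch.aa E, Ch.bb E, Ch.cc E, Ch.ab E, Ch.ba E, Ch.bc E, Ch.cb E, Ch.ac E, Ch.ca E, map_add, map_sub, map_neg, map_zsmul]; try module))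
  have fb : S.F (x * R.r e) b := S.T2 fe hb.fb E.ab hv
  have fd : S.F (x * R.r e) (b + f) := S.mkF (by (simp only [RootLat.Q_sub, RootLat.Q_smul, RootLat.Q_subr, RootLat.Q_smulr, RootLat.Q_add, RootLat.Q_addr, RootLat.Q_neg, RootLat.Q_negr, Ch.aa E, Ch.bb E, Ch.cc E, Ch.ab E, Ch.ba E, Ch.bc E, Ch.cb E, Ch.ac E, Ch.ca E]; try norm_num)) (R.P_add E.pb E.pc) ha.xp (by (simp only [Module.End.mul_apply, Module.End.one_apply, RootLat.r_apply, RootLat.Q_sub, RootLat.Q_smul, RootLat.Q_subr, RootLat.Q_smulr, RootLat.Q_add, RootLat.Q_addr, RootLat.Q_neg, RootLat.Q_negr, Ch.aa E, Ch.bb E, Ch.cc E, Ch.ab E, Ch.ba E, Ch.bc E, Ch.cb E, Ch.ac E, Ch.ca E, map_add, map_sub, map_neg, map_zsmul]; try module)) he.v (by (refine LinearMap.ext fun v => ?_; simp only [Module.End.mul_apply, Module.End.one_apply, RootLat.r_apply, RootLat.Q_sub, RootLat.Q_smul, RootLat.Q_subr, RootLat.Q_smulr, RootLat.Q_add, RootLat.Q_addr, RootLat.Q_neg,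 RootLat.Q_negr, Ch.aa E, Ch.bb E, Ch.cc E, Ch.ab E, Ch.ba E, Ch.bc E, Ch.cb E, Ch.ac E, Ch.ca E, map_add, map_sub, map_neg, map_zsmul]; try module))
  have ik : R.Im (x * R.r e) f := ⟨E.cc, E.pc, R.P_cast (R.P_add hd hb.fb.xp) (by (simp only [Module.End.mul_apply, Module.End.one_apply, RootLat.r_apply, RootLat.Q_sub, RootLat.Q_smul, RootLat.Q_subr, RootLat.Q_smulr, RootLat.Q_add, RootLat.Q_addr, RootLat.Q_neg, RootLat.Q_negr, Ch.aa E, Ch.bb E, Ch.cc E, Ch.ab E, Ch.ba E, Ch.bc E, Ch.cb E, Ch.ac E, Ch.ca E, map_add, map_sub, map_neg, map_zsmul]; try module))⟩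
  have := S.ruleL _ b f hy fb ik fd
  have hw : x * R.r e * R.r b * R.r f = x * R.r (e + (b + f)) * R.r e * R.r b := by (refine LinearMap.ext fun v => ?_; simp only [Module.End.mul_apply, Module.End.one_apply, RootLat.r_apply, RootLat.Q_sub, RootLat.Q_smul, RootLat.Q_subr, RootLat.Q_smulr, RootLat.Q_add, RootLat.Q_addr, RootLat.Q_neg, RootLat.Q_negr, Ch.aa E, Ch.bb E, Ch.cc E, Ch.ab E, Ch.ba E, Ch.bc E, Ch.cb E, Ch.ac E, Ch.ca E, map_add, map_sub, map_neg, map_zsmul]; try module)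
  rwa [hw] at this

/-! ### case (a,b) = -1 -/

/-- chain `a - b - e` -/
theorem f2_B0 (hx : S.A x) (E : Ch R a b e) (hb : S.Sink x b) (ha : S.F x a) (he : S.F (x * R.r a) e) :
    S.V (x * R.r a * R.r e * R.r b) := by
  by_contra hcon
  have fe := S.f2_e0 ha he E.ac
  have hy := S.act hx ha
  have hye := S.act hx fe
  have fb1 : S.F (x * R.r a) b := S.T2 ha hb.fb E.ab (hb.s a ha E.ba)
  have h1 : S.V (x * R.r a * R.r b * R.r e) := by
    rcases S.ruleM _ b e hy fb1 he E.bc with h | h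
    · exact h
    · exact absurd h hcon
  have fa2 : S.F (x * R.r e) a := S.T1 hx fe ha E.ca
  have fb2 : S.F (x * R.r e) b := S.T2 fe hb.fb E.cb (hb.s e fe E.bc)
  have h2 : S.V (x * R.r e * R.r b * R.r a) := by
    rcases S.ruleM _ a b hye fa2 fb2 E.ab with h | h
    · refine absurd ?_ hcon
      have hw : x * R.r e * R.r a * R.r b = x * R.r a * R.r e * R.r b := by (refine LinearMap.ext fun v => ?_; simp only [Module.End.mul_apply, Module.End.one_apply, RootLat.r_apply, RootLat.Q_sub, RootLat.Q_smul, RootLat.Q_subr, RootLat.Q_smulr, RootLat.Q_add, RootLat.Q_addr, RootLat.Q_neg, RootLat.Q_negr, Ch.aa E, Ch.bb E, Ch.cc E, Ch.ab E, Ch.ba E, Ch.bc E, Ch.cb E, Ch.ac E, Ch.ca E, map_add, map_sub, map_neg, map_zsmul]; try module)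
      rwa [hw] at h
    · exact h
  have hz := S.act hy he
  have f1 : S.F (x * R.r a * R.r e) (a + b) :=
    S.mkF (by (simp only [RootLat.Q_sub, RootLat.Q_smul, RootLat.Q_subr, RootLat.Q_smulr, RootLat.Q_add, RootLat.Q_addr, RootLat.Q_neg, RootLat.Q_negr, Ch.aa E, Ch.bb E, Ch.cc E, Ch.ab E, Ch.ba E, Ch.bc E, Ch.cb E, Ch.ac E, Ch.ca E]; try norm_num)) (R.P_add E.pa E.pb) (R.P_add hb.fb.xp fe.xp) (by (simp only [Module.End.mul_apply, Module.End.one_apply, RootLat.r_apply, RootLat.Q_sub, RootLat.Q_smul, RootLat.Q_subr, RootLat.Q_smulr, RootLat.Q_add, RootLat.Q_addr, RootLat.Q_neg, RootLat.Q_negr, Ch.aa E, Ch.bb E, Ch.cc E, Ch.ab E, Ch.ba E, Ch.bc E, Ch.cb E, Ch.ac E, Ch.ca E, map_add, map_sub, map_neg, map_zsmul]; try module)) h2 (by (refine LinearMap.ext fun v => ?_; simp only [Module.End.mul_apply, Module.End.one_apply, RootLat.r_apply, RootLat.Q_sub, RootLat.Q_smul, RootLat.Q_subr, RootLat.Q_smulr, RootLat.Q_add,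 RootLat.Q_addr, RootLat.Q_neg, RootLat.Q_negr, Ch.aa E, Ch.bb E, Ch.cc E, Ch.ab E, Ch.ba E, Ch.bc E, Ch.cb E, Ch.ac E, Ch.ca E, map_add, map_sub, map_neg, map_zsmul]; try module))
  have f2 : S.F (x * R.r a * R.r e) (b + e) :=
    S.mkF (by (simp only [RootLat.Q_sub, RootLat.Q_smul, RootLat.Q_subr, RootLat.Q_smulr, RootLat.Q_add, RootLat.Q_addr, RootLat.Q_neg, RootLat.Q_negr, Ch.aa E, Ch.bb E, Ch.cc E, Ch.ab E, Ch.ba E, Ch.bc E, Ch.cb E, Ch.ac E, Ch.ca E]; try norm_num)) (R.P_add E.pb E.pc) (R.P_add ha.xp hb.fb.xp) (by (simp only [Module.End.mul_apply, Module.End.one_apply, RootLat.r_apply, RootLat.Q_sub, RootLat.Q_smul, RootLat.Q_subr, RootLat.Q_smulr, RootLat.Q_add, RootLat.Q_addr, RootLat.Q_neg, RootLat.Q_negr, Ch.aa E, Ch.bb E, Ch.cc E, Ch.ab E, Ch.ba E, Ch.bc E, Ch.cb E, Ch.ac E, Ch.ca E, map_add, map_sub, map_neg, map_zsmul]; try module)) h1 (by (refine LinearMap.ext fun v => ?_; simp only [Module.End.mul_apply,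 Module.End.one_apply, RootLat.r_apply, RootLat.Q_sub, RootLat.Q_smul, RootLat.Q_subr, RootLat.Q_smulr, RootLat.Q_add, RootLat.Q_addr, RootLat.Q_neg, RootLat.Q_negr, Ch.aa E, Ch.bb E, Ch.cc E, Ch.ab E, Ch.ba E, Ch.bc E, Ch.cb E, Ch.ac E, Ch.ca E, map_add, map_sub, map_neg, map_zsmul]; try module))
  have h3 := S.ruleO _ _ _ hz f1 f2 (by (simp only [RootLat.Q_sub, RootLat.Q_smul, RootLat.Q_subr, RootLat.Q_smulr, RootLat.Q_add, RootLat.Q_addr, RootLat.Q_neg, RootLat.Q_negr, Ch.aa E, Ch.bb E, Ch.cc E, Ch.ab E, Ch.ba E, Ch.bc E, Ch.cb E, Ch.ac E, Ch.ca E]; try norm_num))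
  have h4 := S.dn h3 (b := b) E.bb E.pb hb.fb.xp (by (simp only [Module.End.mul_apply, Module.End.one_apply, RootLat.r_apply, RootLat.Q_sub, RootLat.Q_smul, RootLat.Q_subr, RootLat.Q_smulr, RootLat.Q_add, RootLat.Q_addr, RootLat.Q_neg, RootLat.Q_negr, Ch.aa E, Ch.bb E, Ch.cc E, Ch.ab E, Ch.ba E, Ch.bc E, Ch.cb E, Ch.ac E, Ch.ca E, map_add, map_sub, map_neg, map_zsmul]; try module)) rfl
  have h5 := S.dn h4 (b := a) E.aa E.pa (R.P_add hb.fb.xp fe.xp) (by (simp only [Module.End.mul_apply, Module.End.one_apply, RootLat.r_apply, RootLat.Q_sub, RootLat.Q_smul, RootLat.Q_subr, RootLat.Q_smulr, RootLat.Q_add, RootLat.Q_addr, RootLat.Q_neg, RootLat.Q_negr, Ch.aa E, Ch.bb E, Ch.cc E, Ch.ab E, Ch.ba E, Ch.bc E, Ch.cb E, Ch.ac E, Ch.ca E, map_add, map_sub, map_neg, map_zsmul]; try module)) rfl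
  exact hcon (S.dn h5 (b := e) E.cc E.pc (R.P_add ha.xp hb.fb.xp) (by (simp only [Module.End.mul_apply, Module.End.one_apply, RootLat.r_apply, RootLat.Q_sub, RootLat.Q_smul, RootLat.Q_subr, RootLat.Q_smulr, RootLat.Q_add, RootLat.Q_addr, RootLat.Q_neg, RootLat.Q_negr, Ch.aa E, Ch.bb E, Ch.cc E, Ch.ab E, Ch.ba E, Ch.bc E, Ch.cb E, Ch.ac E, Ch.ca E, map_add, map_sub, map_neg, map_zsmul]; try module)) (by (refine LinearMap.ext fun v => ?_; simp only [Module.End.mul_apply, Module.End.one_apply, RootLat.r_apply, RootLat.Q_sub, RootLat.Q_smul, RootLat.Q_subr, RootLat.Q_smulr, RootLat.Q_add, RootLat.Q_addr, RootLat.Q_neg, RootLat.Q_negr, Ch.aa E, Ch.bb E, Ch.cc E, Ch.ab E, Ch.ba E, Ch.bc E, Ch.cb E, Ch.ac E, Ch.ca E, map_add, map_sub, map_neg, map_zsmul]; try module)))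

/-- `e = a + d`, chain `d - a - b` -/
theorem f2_B1 (hx : S.A x) (E : Ch R d a b) (hb : S.Sink x b) (ha : S.F x a) (he : S.F (x * R.r a) (a + d)) :
    S.V (x * R.r a * R.r (a + d) * R.r b) := by
  have E2 : Ch2 R a d := Ch2.mk' E.bb E.aa E.ba E.pb E.pa
  have fd := S.f2_ep E2 ha he
  have hv : S.V (x * R.r d * R.r a) := by
    have hw : x * R.r a * R.r (a + d) = x * R.r d * R.r a := by (refine LinearMap.ext fun v => ?_; simp only [Module.End.mul_apply, Module.End.one_apply, RootLat.r_apply, RootLat.Q_sub, RootLat.Q_smul, RootLat.Q_subr, RootLat.Q_smulr, RootLat.Q_add, RootLat.Q_addr, RootLat.Q_neg, RootLat.Q_negr, Ch.aa E, Ch.bb E, Ch.cc E, Ch.ab E, Ch.ba E, Ch.bc E, Ch.cb E, Ch.ac E, Ch.ca E, map_add, map_sub, map_neg, map_zsmul]; try module)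
    rw [← hw]; exact he.v
  have := S.S3 hx E fd ha hb hv
  have hw : x * R.r a * R.r (a + d) * R.r b = x * R.r d * R.r a * R.r b := by (refine LinearMap.ext fun v => ?_; simp only [Module.End.mul_apply, Module.End.one_apply, RootLat.r_apply, RootLat.Q_sub, RootLat.Q_smul, RootLat.Q_subr, RootLat.Q_smulr, RootLat.Q_add, RootLat.Q_addr, RootLat.Q_neg, RootLat.Q_negr, Ch.aa E, Ch.bb E, Ch.cc E, Ch.ab E, Ch.ba E, Ch.bc E, Ch.cb E, Ch.ac E, Ch.ca E, map_add, map_sub, map_neg, map_zsmul]; try module)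
  rwa [hw]

/-- `a = e + d`, chain `d - e - b` -/
theorem f2_B2 (hx : S.A x) (E : Ch R d e b) (hb : S.Sink x b) (ha : S.F x (e + d))
    (he : S.F (x * R.r (e + d)) e) : S.V (x * R.r (e + d) * R.r e * R.r b) := by
  have E2 : Ch2 R e d := Ch2.mk' E.bb E.aa E.ba E.pb E.pa
  have fe := S.f2_ep' E2 ha he
  have hv := hb.s e fe E.cb
  have hy := S.act hx fe
  have fb : S.F (x * R.r e) b := S.T2 fe hb.fb E.bc hv
  have fd : S.F (x * R.r e) d := S.mkF E.aa E.pa ha.xp (by (simp only [Module.End.mul_apply, Module.End.one_apply, RootLat.r_apply, RootLat.Q_sub, RootLat.Q_smul, RootLat.Q_subr, RootLat.Q_smulr, RootLat.Q_add, RootLat.Q_addr, RootLat.Q_neg, RootLat.Q_negr, Ch.aa E, Ch.bb E, Ch.cc E, Ch.ab E, Ch.ba E, Ch.bc E, Ch.cb E, Ch.ac E, Ch.ca E, map_add, map_sub, map_neg, map_zsmul]; try module)) he.v (by (refine LinearMap.ext fun v => ?_; simp only [Module.End.mul_apply, Module.End.one_apply, RootLat.r_apply, RootLat.Q_sub,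 RootLat.Q_smul, RootLat.Q_subr, RootLat.Q_smulr, RootLat.Q_add, RootLat.Q_addr, RootLat.Q_neg, RootLat.Q_negr, Ch.aa E, Ch.bb E, Ch.cc E, Ch.ab E, Ch.ba E, Ch.bc E, Ch.cb E, Ch.ac E, Ch.ca E, map_add, map_sub, map_neg, map_zsmul]; try module))
  exact S.O hy fd fb E.ac (by (refine LinearMap.ext fun v => ?_; simp only [Module.End.mul_apply, Module.End.one_apply, RootLat.r_apply, RootLat.Q_sub, RootLat.Q_smul, RootLat.Q_subr, RootLat.Q_smulr, RootLat.Q_add, RootLat.Q_addr, RootLat.Q_neg, RootLat.Q_negr, Ch.aa E, Ch.bb E, Ch.cc E, Ch.ab E, Ch.ba E, Ch.bc E, Ch.cb E, Ch.ac E, Ch.ca E, map_add, map_sub, map_neg, map_zsmul]; try module))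

/-! ### case (a,b) = 1, `a = b + d` -/

theorem f2_C0 (hx : S.A x) (E : Ch2 R b d) (hb : S.Sink x b) (ha : S.F x (b + d)) (hd : R.P (-(x d)))
    (he : S.F (x * R.r (b + d)) e) (h1 : R.Q (b + d) e = 0) (h2 : R.Q b e = -1) :
    S.V (x * R.r (b + d) * R.r e * R.r b) := by
  have fe := S.f2_e0 ha he h1
  have hv := hb.s e fe h2
  have hy := S.act hx fe
  have h2' : R.Q e b = -1 := by rw [R.Q_comm]; exact h2
  have h1' : R.Q e (b + d) = 0 := by rw [R.Q_comm]; exact h1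
  have h3 : R.Q d e = 1 := by rw [R.Q_add, h2] at h1; linarith
  have fb : S.F (x * R.r e) b := S.T2 fe hb.fb h2' hv
  have fa : S.F (x * R.r e) (b + d) := S.T1 hx fe ha h1'
  have hi : R.Im (x * R.r e) d := by
    refine ⟨E.bb, E.pb, R.P_cast (R.P_add hd fe.xp) ?_⟩
    simp only [Module.End.mul_apply, r_apply, h3, map_sub, map_zsmul]
    module
  have h4 := S.ruleL _ b d hy fb hi fa
  have hw : x * R.r e * R.r b * R.r d = x * R.r (b + d) * R.r e * R.r b := by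
    rw [mul_assoc (x * R.r e), R.swm E.aa E.ab, ← mul_assoc, mul_assoc x, R.sw0 h1', ← mul_assoc]
  rwa [hw] at h4

/-- chain `d - b - e`, `a = d + b` -/
theorem f2_C1 (hx : S.A x) (E : Ch R d b e) (hb : S.Sink x b) (ha : S.F x (b + d)) (hd : R.P (-(x d)))
    (he : S.F (x * R.r (b + d)) e) : S.V (x * R.r (b + d) * R.r e * R.r b) := by
  have E2 : Ch2 R b d := Ch2.mk' E.bb E.aa E.ba E.pb E.pa
  have E3 : Ch2 R (b + d) e := Ch2.mk' ha.q E.cc (by (simp only [RootLat.Q_sub, RootLat.Q_smul, RootLat.Q_subr, RootLat.Q_smulr, RootLat.Q_add, RootLat.Q_addr, RootLat.Q_neg, RootLat.Q_negr, Ch.aa E, Ch.bb E, Ch.cc E, Ch.ab E, Ch.ba E, Ch.bc E, Ch.cb E, Ch.ac E, Ch.ca E]; try norm_num)) ha.p E.pc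
  have hy := S.act hx ha
  have fby : S.F (x * R.r (b + d)) b := S.T3 hx E2 hb.fb hd ha
  rcases S.ruleM _ b e hy fby he E.bc with h | h
  swap
  · exact h
  have hbe : S.F x (b + e) := by
    rcases S.sgn (S.AV _ hx) E.cc with hp | hp
    · have fe : S.F x e := S.f2_em ha he E3.ab hp
      have h1 : S.V (x * R.r b * R.r e) := S.dn h (b := d) E.aa E.pa ha.xp (by (simp only [Module.End.mul_apply, Module.End.one_apply, RootLat.r_apply, RootLat.Q_sub, RootLat.Q_smul, RootLat.Q_subr, RootLat.Q_smulr, RootLat.Q_add, RootLat.Q_addr, RootLat.Q_neg, RootLat.Q_negr, Ch.aa E, Ch.bb E, Ch.cc E, Ch.ab E, Ch.ba E, Ch.bc E, Ch.cb E, Ch.ac E, Ch.ca E, map_add, map_sub, map_neg, map_zsmul]; try module)) (by (refine LinearMap.ext fun v => ?_; simp only [Module.End.mul_apply, Module.End.one_apply, RootLat.r_apply, RootLat.Q_sub, RootLat.Q_smul, RootLat.Q_subr, RootLat.Q_smulr, RootLat.Q_add, RootLat.Q_addr, RootLat.Q_neg, RootLat.Q_negr,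 Ch.aa E, Ch.bb E, Ch.cc E, Ch.ab E, Ch.ba E, Ch.bc E, Ch.cb E, Ch.ac E, Ch.ca E, map_add, map_sub, map_neg, map_zsmul]; try module))
      exact S.M2 hx hb.fb fe E.bc h1 (hb.s e fe E.bc)
    · have h0 : R.P (x (b + d) + x e) := R.P_cast he.xp (by (simp only [Module.End.mul_apply, Module.End.one_apply, RootLat.r_apply, RootLat.Q_sub, RootLat.Q_smul, RootLat.Q_subr, RootLat.Q_smulr, RootLat.Q_add, RootLat.Q_addr, RootLat.Q_neg, RootLat.Q_negr, Ch.aa E, Ch.bb E, Ch.cc E, Ch.ab E, Ch.ba E, Ch.bc E, Ch.cb E, Ch.ac E, Ch.ca E, map_add, map_sub, map_neg, map_zsmul]; try module))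
      have h1 := S.dn h (b := b + d) ha.q ha.p hp (by (simp only [Module.End.mul_apply, Module.End.one_apply, RootLat.r_apply, RootLat.Q_sub, RootLat.Q_smul, RootLat.Q_subr, RootLat.Q_smulr, RootLat.Q_add, RootLat.Q_addr, RootLat.Q_neg, RootLat.Q_negr, Ch.aa E, Ch.bb E, Ch.cc E, Ch.ab E, Ch.ba E, Ch.bc E, Ch.cb E, Ch.ac E, Ch.ca E, map_add, map_sub, map_neg, map_zsmul]; try module)) rfl
      have h2 : S.V (x * R.r (b + e)) := S.dn h1 (b := d) E.aa E.pa h0 (by (simp only [Module.End.mul_apply, Module.End.one_apply, RootLat.r_apply, RootLat.Q_sub, RootLat.Q_smul, RootLat.Q_subr, RootLat.Q_smulr, RootLat.Q_add, RootLat.Q_addr, RootLat.Q_neg, RootLat.Q_negr, Ch.aa E, Ch.bb E, Ch.cc E, Ch.ab E, Ch.ba E, Ch.bc E, Ch.cb E, Ch.ac E, Ch.ca E, map_add, map_sub, map_neg, map_zsmul]; try module)) (by (refine LinearMap.ext fun v => ?_; simp only [Module.End.mul_apply, Module.End.one_apply, RootLat.r_apply, RootLat.Q_sub,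 RootLat.Q_smul, RootLat.Q_subr, RootLat.Q_smulr, RootLat.Q_add, RootLat.Q_addr, RootLat.Q_neg, RootLat.Q_negr, Ch.aa E, Ch.bb E, Ch.cc E, Ch.ab E, Ch.ba E, Ch.bc E, Ch.cb E, Ch.ac E, Ch.ca E, map_add, map_sub, map_neg, map_zsmul]; try module))
      exact S.mkF (by (simp only [RootLat.Q_sub, RootLat.Q_smul, RootLat.Q_subr, RootLat.Q_smulr, RootLat.Q_add, RootLat.Q_addr, RootLat.Q_neg, RootLat.Q_negr, Ch.aa E, Ch.bb E, Ch.cc E, Ch.ab E, Ch.ba E, Ch.bc E, Ch.cb E, Ch.ac E, Ch.ca E]; try norm_num)) (R.P_add E.pb E.pc) (R.P_add h0 hd) (by (simp only [Module.End.mul_apply, Module.End.one_apply, RootLat.r_apply, RootLat.Q_sub, RootLat.Q_smul, RootLat.Q_subr, RootLat.Q_smulr, RootLat.Q_add, RootLat.Q_addr, RootLat.Q_neg, RootLat.Q_negr, Ch.aa E, Ch.bb E, Ch.cc E, Ch.ab E, Ch.ba E, Ch.bc E, Ch.cb E, Ch.ac E, Ch.ca E, map_add, map_sub, map_neg, map_zsmul]; try module)) h2 rfl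
  have h5 := S.ruleO _ _ _ hx ha hbe (by (simp only [RootLat.Q_sub, RootLat.Q_smul, RootLat.Q_subr, RootLat.Q_smulr, RootLat.Q_add, RootLat.Q_addr, RootLat.Q_neg, RootLat.Q_negr, Ch.aa E, Ch.bb E, Ch.cc E, Ch.ab E, Ch.ba E, Ch.bc E, Ch.cb E, Ch.ac E, Ch.ca E]; try norm_num))
  exact S.dn h5 (b := e) E.cc E.pc hd (by (simp only [Module.End.mul_apply, Module.End.one_apply, RootLat.r_apply, RootLat.Q_sub, RootLat.Q_smul, RootLat.Q_subr, RootLat.Q_smulr, RootLat.Q_add, RootLat.Q_addr, RootLat.Q_neg, RootLat.Q_negr, Ch.aa E, Ch.bb E, Ch.cc E, Ch.ab E, Ch.ba E, Ch.bc E, Ch.cb E, Ch.ac E, Ch.ca E, map_add, map_sub, map_neg, map_zsmul]; try module)) (by (refine LinearMap.ext fun v => ?_; simp only [Module.End.mul_apply, Module.End.one_apply, RootLat.r_apply, RootLat.Q_sub, RootLat.Q_smul, RootLat.Q_subr, RootLat.Q_smulr, RootLat.Q_add, RootLat.Q_addr, RootLat.Q_neg, RootLat.Q_negr, Ch.aa E, Ch.bb E, Ch.cc E, Ch.ab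 E, Ch.ba E, Ch.bc E, Ch.cb E, Ch.ac E, Ch.ca E, map_add, map_sub, map_neg, map_zsmul]; try module))

/-! ### case (a,b) = 1, `b = a + d` -/

/-- chain `a - d - e` -/
theorem f2_D0 (hx : S.A x) (E : Ch R a d e) (hb : S.Sink x (a + d)) (ha : S.F x a)
    (he : S.F (x * R.r a) e) : S.V (x * R.r a * R.r e * R.r (a + d)) := by
  have fe := S.f2_e0 ha he E.ac
  have hv := hb.s e fe (by (simp only [RootLat.Q_sub, RootLat.Q_smul, RootLat.Q_subr, RootLat.Q_smulr, RootLat.Q_add, RootLat.Q_addr, RootLat.Q_neg, RootLat.Q_negr, Ch.aa E, Ch.bb E, Ch.cc E, Ch.ab E, Ch.ba E, Ch.bc E, Ch.cb E, Ch.ac E, Ch.ca E]; try norm_num))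
  exact S.dn hv (b := d) E.bb E.pb ha.xp (by (simp only [Module.End.mul_apply, Module.End.one_apply, RootLat.r_apply, RootLat.Q_sub, RootLat.Q_smul, RootLat.Q_subr, RootLat.Q_smulr, RootLat.Q_add, RootLat.Q_addr, RootLat.Q_neg, RootLat.Q_negr, Ch.aa E, Ch.bb E, Ch.cc E, Ch.ab E, Ch.ba E, Ch.bc E, Ch.cb E, Ch.ac E, Ch.ca E, map_add, map_sub, map_neg, map_zsmul]; try module)) (by (refine LinearMap.ext fun v => ?_; simp only [Module.End.mul_apply, Module.End.one_apply, RootLat.r_apply, RootLat.Q_sub, RootLat.Q_smul, RootLat.Q_subr, RootLat.Q_smulr, RootLat.Q_add, RootLat.Q_addr, RootLat.Q_neg, RootLat.Q_negr, Ch.aa E, Ch.bb E, Ch.cc E, Ch.ab E, Ch.ba E, Ch.bc E, Ch.cb E, Ch.ac E, Ch.ca E, map_add, map_sub, map_neg, map_zsmul]; try module))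

/-- chain `d - a - e` -/
theorem f2_D1 (hx : S.A x) (E : Ch R d a e) (hb : S.Sink x (a + d)) (ha : S.F x a) (hd : R.P (x d))
    (he : S.F (x * R.r a) e) : S.V (x * R.r a * R.r e * R.r (a + d)) := by
  have E2 : Ch2 R a d := Ch2.mk' E.bb E.aa E.ba E.pb E.pa
  have hy := S.act hx ha
  rcases S.sgn (S.AV _ hx) E.cc with hp | hp
  · have fe := S.f2_em ha he E.bc hp
    have h1 : S.V (x * R.r e * R.r (a + d)) := hb.s e fe (by (simp only [RootLat.Q_sub, RootLat.Q_smul, RootLat.Q_subr, RootLat.Q_smulr, RootLat.Q_add, RootLat.Q_addr, RootLat.Q_neg, RootLat.Q_negr, Ch.aa E, Ch.bb E, Ch.cc E, Ch.ab E, Ch.ba E, Ch.bc E, Ch.cb E, Ch.ac E, Ch.ca E]; try norm_num))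
    have h2 := S.dn h1 (b := d) E.aa E.pa (R.P_add ha.xp hp) (by (simp only [Module.End.mul_apply, Module.End.one_apply, RootLat.r_apply, RootLat.Q_sub, RootLat.Q_smul, RootLat.Q_subr, RootLat.Q_smulr, RootLat.Q_add, RootLat.Q_addr, RootLat.Q_neg, RootLat.Q_negr, Ch.aa E, Ch.bb E, Ch.cc E, Ch.ab E, Ch.ba E, Ch.bc E, Ch.cb E, Ch.ac E, Ch.ca E, map_add, map_sub, map_neg, map_zsmul]; try module)) rfl
    have h3 : S.V (x * R.r e * R.r a) := S.dn h2 (b := a + d) (by (simp only [RootLat.Q_sub, RootLat.Q_smul, RootLat.Q_subr, RootLat.Q_smulr, RootLat.Q_add, RootLat.Q_addr, RootLat.Q_neg, RootLat.Q_negr, Ch.aa E, Ch.bb E, Ch.cc E, Ch.ab E, Ch.ba E, Ch.bc E, Ch.cb E, Ch.ac E, Ch.ca E]; try norm_num)) hb.fb.p hd (by (simp only [Module.End.mul_apply, Module.End.one_apply, RootLat.r_apply, RootLat.Q_sub, RootLat.Q_smul, RootLat.Q_subr, RootLat.Q_smulr, RootLat.Q_add, RootLat.Q_addr, RootLat.Q_neg, RootLat.Q_negr, Ch.aa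 E, Ch.bb E, Ch.cc E, Ch.ab E, Ch.ba E, Ch.bc E, Ch.cb E, Ch.ac E, Ch.ca E, map_add, map_sub, map_neg, map_zsmul]; try module)) (by (refine LinearMap.ext fun v => ?_; simp only [Module.End.mul_apply, Module.End.one_apply, RootLat.r_apply, RootLat.Q_sub, RootLat.Q_smul, RootLat.Q_subr, RootLat.Q_smulr, RootLat.Q_add, RootLat.Q_addr, RootLat.Q_neg, RootLat.Q_negr, Ch.aa E, Ch.bb E, Ch.cc E, Ch.ab E, Ch.ba E, Ch.bc E, Ch.cb E, Ch.ac E, Ch.ca E, map_add, map_sub, map_neg, map_zsmul]; try module))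
    have fae : S.F x (a + e) := S.M2 hx ha fe E.bc he.v h3
    have h4 : S.V (x * R.r (a + d) * R.r (a + e)) := S.ruleO _ _ _ hx hb.fb fae (by (simp only [RootLat.Q_sub, RootLat.Q_smul, RootLat.Q_subr, RootLat.Q_smulr, RootLat.Q_add, RootLat.Q_addr, RootLat.Q_neg, RootLat.Q_negr, Ch.aa E, Ch.bb E, Ch.cc E, Ch.ab E, Ch.ba E, Ch.bc E, Ch.cb E, Ch.ac E, Ch.ca E]; try norm_num))
    have hze : S.A (x * R.r e) := S.act hx fe
    have fa1 : S.F (x * R.r e) a := S.T2 fe ha E.cb h3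
    have hzea := S.act hze fa1
    have h5 : S.V (x * R.r e * R.r a * R.r d) := S.dn h1 (b := a) E.bb E.pb hd (by (simp only [Module.End.mul_apply, Module.End.one_apply, RootLat.r_apply, RootLat.Q_sub, RootLat.Q_smul, RootLat.Q_subr, RootLat.Q_smulr, RootLat.Q_add, RootLat.Q_addr, RootLat.Q_neg, RootLat.Q_negr, Ch.aa E, Ch.bb E, Ch.cc E, Ch.ab E, Ch.ba E, Ch.bc E, Ch.cb E, Ch.ac E, Ch.ca E, map_add, map_sub, map_neg, map_zsmul]; try module)) (by (refine LinearMap.ext fun v => ?_; simp only [Module.End.mul_apply, Module.End.one_apply, RootLat.r_apply, RootLat.Q_sub, RootLat.Q_smul, RootLat.Q_subr, RootLat.Q_smulr, RootLat.Q_add, RootLat.Q_addr, RootLat.Q_neg, RootLat.Q_negr, Ch.aa E, Ch.bb E, Ch.cc E, Ch.ab E, Ch.ba E, Ch.bc E, Ch.cb E, Ch.ac E, Ch.ca E, map_add, map_sub, map_neg, map_zsmul]; try module))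
    have fd2 : S.F (x * R.r e * R.r a) d :=
      S.mkF E.aa E.pa (R.P_add hd (R.P_add ha.xp hp)) (by (simp only [Module.End.mul_apply, Module.End.one_apply, RootLat.r_apply, RootLat.Q_sub, RootLat.Q_smul, RootLat.Q_subr, RootLat.Q_smulr, RootLat.Q_add, RootLat.Q_addr, RootLat.Q_neg, RootLat.Q_negr, Ch.aa E, Ch.bb E, Ch.cc E, Ch.ab E, Ch.ba E, Ch.bc E, Ch.cb E, Ch.ac E, Ch.ca E, map_add, map_sub, map_neg, map_zsmul]; try module)) h5 rfl
    have fe2 : S.F (x * R.r e * R.r a) e := S.mkF E.cc E.pc ha.xp (by (simp only [Module.End.mul_apply, Module.End.one_apply, RootLat.r_apply, RootLat.Q_sub, RootLat.Q_smul, RootLat.Q_subr, RootLat.Q_smulr, RootLat.Q_add, RootLat.Q_addr, RootLat.Q_neg, RootLat.Q_negr, Ch.aa E, Ch.bb E, Ch.cc E, Ch.ab E, Ch.ba E, Ch.bc E, Ch.cb E, Ch.ac E, Ch.ca E, map_add, map_sub, map_neg, map_zsmul]; try module)) fae.v (by (refine LinearMap.ext fun v => ?_; simp only [Module.End.mul_apply,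 Module.End.one_apply, RootLat.r_apply, RootLat.Q_sub, RootLat.Q_smul, RootLat.Q_subr, RootLat.Q_smulr, RootLat.Q_add, RootLat.Q_addr, RootLat.Q_neg, RootLat.Q_negr, Ch.aa E, Ch.bb E, Ch.cc E, Ch.ab E, Ch.ba E, Ch.bc E, Ch.cb E, Ch.ac E, Ch.ca E, map_add, map_sub, map_neg, map_zsmul]; try module))
    have h6 : S.V (x * R.r e * R.r a * R.r d * R.r e) := S.ruleO _ _ _ hzea fd2 fe2 E.ac
    have h7 : S.V (x * R.r a * R.r d) := S.Vbc E2 hd hb.fb
    have fd3 : S.F (x * R.r a) d := S.mkF E.aa E.pa (R.P_add ha.xp hd) (by (simp only [Module.End.mul_apply, Module.End.one_apply, RootLat.r_apply, RootLat.Q_sub, RootLat.Q_smul, RootLat.Q_subr, RootLat.Q_smulr, RootLat.Q_add, RootLat.Q_addr, RootLat.Q_neg, RootLat.Q_negr, Ch.aa E, Ch.bb E, Ch.cc E, Ch.ab E, Ch.ba E, Ch.bc E, Ch.cb E, Ch.ac E, Ch.ca E, map_add, map_sub, map_neg, map_zsmul]; try module)) h7 rfl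
    have hzad := S.act hy fd3
    have fe3 : S.F (x * R.r a * R.r d) e := S.T1 hy fd3 he E.ac
    have hz := S.act hzad fe3
    have g1 : S.F (x * R.r a * R.r d * R.r e) a :=
      S.mkF E.bb E.pb (R.P_add hd (R.P_add ha.xp hp)) (by (simp only [Module.End.mul_apply, Module.End.one_apply, RootLat.r_apply, RootLat.Q_sub, RootLat.Q_smul, RootLat.Q_subr, RootLat.Q_smulr, RootLat.Q_add, RootLat.Q_addr, RootLat.Q_neg, RootLat.Q_negr, Ch.aa E, Ch.bb E, Ch.cc E, Ch.ab E, Ch.ba E, Ch.bc E, Ch.cb E, Ch.ac E, Ch.ca E, map_add, map_sub, map_neg, map_zsmul]; try module)) h4 (by (refine LinearMap.ext fun v => ?_; simp only [Module.End.mul_apply, Module.End.one_apply, RootLat.r_apply, RootLat.Q_sub, RootLat.Q_smul, RootLat.Q_subr, RootLat.Q_smulr, RootLat.Q_add, RootLat.Q_addr, RootLat.Q_neg, RootLat.Q_negr, Ch.aa E, Ch.bb E, Ch.cc E, Ch.ab E, Ch.ba E, Ch.bc E, Ch.cb E, Ch.ac E, Ch.ca E, map_add, map_sub, map_neg, map_zsmul];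 try module))
    have g2 : S.F (x * R.r a * R.r d * R.r e) (a + d) :=
      S.mkF (by (simp only [RootLat.Q_sub, RootLat.Q_smul, RootLat.Q_subr, RootLat.Q_smulr, RootLat.Q_add, RootLat.Q_addr, RootLat.Q_neg, RootLat.Q_negr, Ch.aa E, Ch.bb E, Ch.cc E, Ch.ab E, Ch.ba E, Ch.bc E, Ch.cb E, Ch.ac E, Ch.ca E]; try norm_num)) hb.fb.p hp (by (simp only [Module.End.mul_apply, Module.End.one_apply, RootLat.r_apply, RootLat.Q_sub, RootLat.Q_smul, RootLat.Q_subr, RootLat.Q_smulr, RootLat.Q_add, RootLat.Q_addr, RootLat.Q_neg, RootLat.Q_negr, Ch.aa E, Ch.bb E, Ch.cc E, Ch.ab E, Ch.ba E, Ch.bc E, Ch.cb E, Ch.ac E, Ch.ca E, map_add, map_sub, map_neg, map_zsmul]; try module)) h6 (by (refine LinearMap.ext fun v => ?_; simp only [Module.End.mul_apply, Module.End.one_apply, RootLat.r_apply, RootLat.Q_sub, RootLat.Q_smul, RootLat.Q_subr, RootLat.Q_smulr, RootLat.Q_add, RootLat.Q_addr, RootLat.Q_neg, RootLat.Q_negr, Ch.aa E, Ch.bb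 E, Ch.cc E, Ch.ab E, Ch.ba E, Ch.bc E, Ch.cb E, Ch.ac E, Ch.ca E, map_add, map_sub, map_neg, map_zsmul]; try module))
    have g3 : R.Im (x * R.r a * R.r d * R.r e) d := ⟨E.aa, E.pa, R.P_cast hb.fb.xp (by (simp only [Module.End.mul_apply, Module.End.one_apply, RootLat.r_apply, RootLat.Q_sub, RootLat.Q_smul, RootLat.Q_subr, RootLat.Q_smulr, RootLat.Q_add, RootLat.Q_addr, RootLat.Q_neg, RootLat.Q_negr, Ch.aa E, Ch.bb E, Ch.cc E, Ch.ab E, Ch.ba E, Ch.bc E, Ch.cb E, Ch.ac E, Ch.ca E, map_add, map_sub, map_neg, map_zsmul]; try module))⟩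
    have := S.ruleL _ a d hz g1 g3 g2
    have hw : x * R.r a * R.r d * R.r e * R.r a * R.r d = x * R.r a * R.r e * R.r (a + d) := by (refine LinearMap.ext fun v => ?_; simp only [Module.End.mul_apply, Module.End.one_apply, RootLat.r_apply, RootLat.Q_sub, RootLat.Q_smul, RootLat.Q_subr, RootLat.Q_smulr, RootLat.Q_add, RootLat.Q_addr, RootLat.Q_neg, RootLat.Q_negr, Ch.aa E, Ch.bb E, Ch.cc E, Ch.ab E, Ch.ba E, Ch.bc E, Ch.cb E, Ch.ac E, Ch.ca E, map_add, map_sub, map_neg, map_zsmul]; try module)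
    rwa [hw] at this
  · have ff := S.f2_em' ha he E.bc hp
    have h1 := S.ruleO _ _ _ hx hb.fb ff (by (simp only [RootLat.Q_sub, RootLat.Q_smul, RootLat.Q_subr, RootLat.Q_smulr, RootLat.Q_add, RootLat.Q_addr, RootLat.Q_neg, RootLat.Q_negr, Ch.aa E, Ch.bb E, Ch.cc E, Ch.ab E, Ch.ba E, Ch.bc E, Ch.cb E, Ch.ac E, Ch.ca E]; try norm_num))
    exact S.dn h1 (b := d) E.aa E.pa hp (by (simp only [Module.End.mul_apply, Module.End.one_apply, RootLat.r_apply, RootLat.Q_sub, RootLat.Q_smul, RootLat.Q_subr, RootLat.Q_smulr, RootLat.Q_add, RootLat.Q_addr, RootLat.Q_neg, RootLat.Q_negr, Ch.aa E, Ch.bb E, Ch.cc E, Ch.ab E, Ch.ba E, Ch.bc E, Ch.cb E, Ch.ac E, Ch.ca E, map_add, map_sub, map_neg, map_zsmul]; try module)) (by (refine LinearMap.ext fun v => ?_; simp only [Module.End.mul_apply, Module.End.one_apply, RootLat.r_apply, RootLat.Q_sub, RootLat.Q_smul, RootLat.Q_subr, RootLat.Q_smulr, RootLat.Q_add, RootLat.Q_addr,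 RootLat.Q_neg, RootLat.Q_negr, Ch.aa E, Ch.bb E, Ch.cc E, Ch.ab E, Ch.ba E, Ch.bc E, Ch.cb E, Ch.ac E, Ch.ca E, map_add, map_sub, map_neg, map_zsmul]; try module))

/-! ### assembly -/

theorem f2_stmt : F2Stmt S := by
  intro x a b hx hb ha hyb
  have hy := S.act hx ha
  have hab : a ≠ b := by
    rintro rfl
    have : R.P (-(x a)) := R.P_cast hyb (by
      simp only [Module.End.mul_apply, r_apply, ha.q, map_sub, map_zsmul]; module)
    exact R.P_neg ha.xp this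
  have hbq := hb.fb.q
  have haq := ha.q
  have key : ∀ e, S.F (x * R.r a) e → R.Q b e = -1 → R.Q a e = -1 ∨ R.Q a e = 0 ∨ R.Q a e = 1 := by
    intro e he hbe
    refine R.Q_cases' ha.q he.q ha.p he.p ?_
    rintro rfl
    have : R.P (-(x a)) := R.P_cast he.xp (by
      simp only [Module.End.mul_apply, r_apply, ha.q, map_sub, map_zsmul]; module)
    exact R.P_neg ha.xp this
  rcases R.Q_cases' ha.q hb.fb.q ha.p hb.fb.p hab with h | h | h
  · -- (a,b) = -1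
    have hba : R.Q b a = -1 := by rw [R.Q_comm]; exact h
    refine ⟨S.T2 ha hb.fb h (hb.s a ha hba), ?_⟩
    intro e he hbe
    have heb : R.Q e b = -1 := by rw [R.Q_comm]; exact hbe
    rcases key e he hbe with h1 | h1 | h1
    · exact (R.no_triangle ha.q hb.fb.q he.q ha.p hb.fb.p he.p h hbe h1).elim
    · exact S.f2_B0 hx (Ch.mk' ha.q hb.fb.q he.q h hbe h1 ha.p hb.fb.p he.p) hb ha he
    · have hr : R.Q (e - a) (e - a) = 2 := by
        simp only [R.Q_sub, R.Q_subr, ha.q, he.q, R.Q_comm e a, h1]; norm_num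
      rcases R.P_root _ hr with hp | hp
      · obtain ⟨d, rfl⟩ : ∃ d, e = a + d := ⟨e - a, by abel⟩
        rw [add_sub_cancel_left] at hp hr
        have e1 : R.Q a d = -1 := by rw [R.Q_addr, ha.q] at h1; linarith
        have e2 : R.Q b d = 0 := by rw [R.Q_addr, hba] at hbe; linarith
        exact S.f2_B1 hx (Ch.mk' hr ha.q hb.fb.q (by rw [R.Q_comm]; exact e1) h
          (by rw [R.Q_comm]; exact e2) hp ha.p hb.fb.p) hb ha he
      · obtain ⟨d, rfl⟩ : ∃ d, a = e + d := ⟨a - e, by abel⟩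
        have e0 : -(e - (e + d)) = d := by abel
        rw [e0] at hp
        have hr' : R.Q d d = 2 := by
          rw [← e0]; rw [R.Q_neg, R.Q_negr]; linarith
        have e1 : R.Q e d = -1 := by
          have := ha.q
          rw [R.Q_add, R.Q_addr, R.Q_addr, he.q, hr', R.Q_comm d e] at this; linarith
        have e2 : R.Q b d = 0 := by rw [R.Q_addr, hbe] at hba; linarith
        exact S.f2_B2 hx (Ch.mk' hr' he.q hb.fb.q (by rw [R.Q_comm]; exact e1) heb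
          (by rw [R.Q_comm]; exact e2) hp he.p hb.fb.p) hb ha he
  · -- (a,b) = 0
    have hba : R.Q b a = 0 := by rw [R.Q_comm]; exact h
    refine ⟨S.T1 hx ha hb.fb h, ?_⟩
    intro e he hbe
    have heb : R.Q e b = -1 := by rw [R.Q_comm]; exact hbe
    rcases key e he hbe with h1 | h1 | h1
    · exact S.f2_A2 hx (Ch.mk' ha.q he.q hb.fb.q h1 heb h ha.p he.p hb.fb.p) hb ha he
    · exact S.f2_A1 hx hb ha he h h1 hbe
    · have hr : R.Q (e - a) (e - a) = 2 := by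
        simp only [R.Q_sub, R.Q_subr, ha.q, he.q, R.Q_comm e a, h1]; norm_num
      rcases R.P_root _ hr with hp | hp
      · obtain ⟨d, rfl⟩ : ∃ d, e = a + d := ⟨e - a, by abel⟩
        rw [add_sub_cancel_left] at hp hr
        have e1 : R.Q a d = -1 := by rw [R.Q_addr, ha.q] at h1; linarith
        have e2 : R.Q b d = -1 := by rw [R.Q_addr, hba] at hbe; linarith
        exact S.f2_A3 hx (Ch.mk' ha.q hr hb.fb.q e1
          (by rw [R.Q_comm]; exact e2) h ha.p hp hb.fb.p) hb ha he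
      · obtain ⟨d, rfl⟩ : ∃ d, a = e + d := ⟨a - e, by abel⟩
        have e0 : -(e - (e + d)) = d := by abel
        rw [e0] at hp
        have hr' : R.Q d d = 2 := by
          rw [← e0]; rw [R.Q_neg, R.Q_negr]; linarith
        have e1 : R.Q e d = -1 := by
          have := ha.q
          rw [R.Q_add, R.Q_addr, R.Q_addr, he.q, hr', R.Q_comm d e] at this; linarith
        have e2 : R.Q b d = 1 := by rw [R.Q_addr, hbe] at hba; linarith
        have e2' : R.Q d b = 1 := by rw [R.Q_comm]; exact e2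
        have hk : R.Q (b - d) (b - d) = 2 := by
          simp only [R.Q_sub, R.Q_subr, hb.fb.q, hr', e2, e2']; norm_num
        rcases R.P_root _ hk with hkp | hkp
        · obtain ⟨k, rfl⟩ : ∃ k, b = d + k := ⟨b - d, by abel⟩
          rw [add_sub_cancel_left] at hk hkp
          have e3 : R.Q d k = -1 := by rw [R.Q_add, hr', R.Q_comm k d] at e2; linarith
          have e4 : R.Q e k = 0 := by rw [R.Q_addr, e1] at heb; linarith
          exact S.f2_A4 hx (Ch.mk' he.q hr' hk e1 e3 e4 he.p hp hkp) hb ha he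
        · obtain ⟨k, rfl⟩ : ∃ k, d = b + k := ⟨d - b, by abel⟩
          have e5 : -(b - (b + k)) = k := by abel
          rw [e5] at hkp
          have hk' : R.Q k k = 2 := by
            rw [← e5]; rw [R.Q_neg, R.Q_negr]; linarith
          have e3 : R.Q b k = -1 := by rw [R.Q_addr, hb.fb.q] at e2; linarith
          have e4 : R.Q e k = 0 := by rw [R.Q_addr, heb] at e1; linarith
          exact S.f2_A5 hx (Ch.mk' he.q hb.fb.q hk' heb e3 e4 he.p hb.fb.p hkp) hb ha he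
  · -- (a,b) = 1
    have hba : R.Q b a = 1 := by rw [R.Q_comm]; exact h
    have hr : R.Q (b - a) (b - a) = 2 := by
      simp only [R.Q_sub, R.Q_subr, ha.q, hb.fb.q, h, hba]; norm_num
    rcases R.P_root _ hr with hp | hp
    · -- b = a + d
      obtain ⟨d, rfl⟩ : ∃ d, b = a + d := ⟨b - a, by abel⟩
      rw [add_sub_cancel_left] at hp hr
      have e1 : R.Q a d = -1 := by rw [R.Q_addr, ha.q] at h; linarith
      have E2 : Ch2 R a d := Ch2.mk' ha.q hr e1 ha.p hp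
      have hd : R.P (x d) := R.P_cast hyb (by (simp only [Module.End.mul_apply, Module.End.one_apply, RootLat.r_apply, RootLat.Q_sub, RootLat.Q_smul, RootLat.Q_subr, RootLat.Q_smulr, RootLat.Q_add, RootLat.Q_addr, RootLat.Q_neg, RootLat.Q_negr, Ch2.aa E2, Ch2.bb E2, Ch2.ab E2, Ch2.ba E2, map_add, map_sub, map_neg, map_zsmul]; try module))
      refine ⟨S.T10 E2 ha.xp hd hb.fb, ?_⟩
      intro e he hbe
      rcases key e he hbe with h1 | h1 | h1
      · have e2 : R.Q d e = 0 := by rw [R.Q_add, h1] at hbe; linarith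
        exact S.f2_D1 hx (Ch.mk' hr ha.q he.q (by rw [R.Q_comm]; exact e1) h1 e2 hp ha.p he.p) hb ha hd he
      · have e2 : R.Q d e = -1 := by rw [R.Q_add, h1] at hbe; linarith
        exact S.f2_D0 hx (Ch.mk' ha.q hr he.q e1 e2 h1 ha.p hp he.p) hb ha he
      · exfalso
        have e2 : R.Q d e = -2 := by rw [R.Q_add, h1] at hbe; linarith
        have := R.eq_neg_of hr he.q e2
        subst this
        exact R.P_neg he.p hp
    · -- a = b + d
      obtain ⟨d, rfl⟩ : ∃ d, a = b + d := ⟨a - b, by abel⟩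
      have e0 : -(b - (b + d)) = d := by abel
      rw [e0] at hp
      have hr' : R.Q d d = 2 := by
        rw [← e0]; rw [R.Q_neg, R.Q_negr]; linarith
      have e1 : R.Q b d = -1 := by rw [R.Q_addr, hb.fb.q] at hba; linarith
      have E2 : Ch2 R b d := Ch2.mk' hb.fb.q hr' e1 hb.fb.p hp
      have hd : R.P (-(x d)) := R.P_cast hyb (by (simp only [Module.End.mul_apply, Module.End.one_apply, RootLat.r_apply, RootLat.Q_sub, RootLat.Q_smul, RootLat.Q_subr, RootLat.Q_smulr, RootLat.Q_add, RootLat.Q_addr, RootLat.Q_neg, RootLat.Q_negr, Ch2.aa E2, Ch2.bb E2, Ch2.ab E2, Ch2.ba E2, map_add, map_sub, map_neg, map_zsmul]; try module))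
      refine ⟨S.T3 hx E2 hb.fb hd ha, ?_⟩
      intro e he hbe
      rcases key e he hbe with h1 | h1 | h1
      · have e2 : R.Q d e = 0 := by rw [R.Q_add, hbe] at h1; linarith
        exact S.f2_C1 hx (Ch.mk' hr' hb.fb.q he.q (by rw [R.Q_comm]; exact e1) hbe e2 hp hb.fb.p he.p)
          hb ha hd he
      · exact S.f2_C0 hx E2 hb ha hd he h1 hbe
      · exfalso
        have e2 : R.Q d e = 2 := by rw [R.Q_add, hbe] at h1; linarith
        have := R.eq_of_two hr' he.q e2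
        subst this
        have h9 : R.P (-(x b)) := R.P_cast he.xp (by (simp only [Module.End.mul_apply, Module.End.one_apply, RootLat.r_apply, RootLat.Q_sub, RootLat.Q_smul, RootLat.Q_subr, RootLat.Q_smulr, RootLat.Q_add, RootLat.Q_addr, RootLat.Q_neg, RootLat.Q_negr, Ch2.aa E2, Ch2.bb E2, Ch2.ab E2, Ch2.ba E2, map_add, map_sub, map_neg, map_zsmul]; try module))
        exact R.P_neg hb.fb.xp h9

end Sys

end Pool.Agent.H11.ZDE
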